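import Pool.Agent.H867.BS.Final

set_option autoImplicit false

/-!
# A curved irreducible component of the zero locus of a Bernstein-Sato ideal

`X = ℂ²` with coordinates `x = x 0`, `y = x 1`, and `F = (x, x + y, y, y³ - x⁴ + x² y²)`, a tuple
of polynomials with integer coefficients. The surface `V ⊆ ℂ⁴` given by
`s₀ = -(s₁ + 1)(2 s₁ + 1)` and `3 (s₀ + s₁) + 4 s₂ + 12 s₃ + 31 = 0` is an irreducible component
(of codimension two) of `Z(B_F)`, for every `W` containing the origin.

The definitions `bsIdeal`, `zeroSet`, `IsComponent`, `IsRationalAffine` are those of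
`Pool.Graph.R_seed8.W459.BS.Defs`.
-/

open MvPolynomial
open Pool.Agent.W459.BS (bsIdeal zeroSet IsComponent IsRationalAffine)

namespace Pool.Agent.Results.MP_63dd0b_ag.NonlinearComponent

/-- For `F = (x, x + y, y, y³ - x⁴ + x² y²)` on `ℂ²` and every `W` containing the origin, the
parabolic cylinder `V` is an irreducible component of `Z(B_F)`. It is not an affine subspace of
`ℂ⁴`; in particular it is not a rational affine subspace. -/
theorem result : ∃ V : Set (Fin 4 → ℂ),
    V = {s | s 0 + (s 1 + 1) * (2 * s 1 + 1) = 0 ∧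
      3 * (s 0 + s 1) + 4 * s 2 + 12 * s 3 + 31 = 0} ∧
    (∀ W : Set (Fin 2 → ℂ), (0 : Fin 2 → ℂ) ∈ W →
      IsComponent (zeroSet (bsIdeal (![fun x => x 0, fun x => x 0 + x 1, fun x => x 1,
        fun x => x 1 ^ 3 - x 0 ^ 4 + x 0 ^ 2 * x 1 ^ 2] : Fin 4 → (Fin 2 → ℂ) → ℂ) W :
        Set (MvPolynomial (Fin 4) ℂ))) V) ∧
    (∀ S : AffineSubspace ℂ (Fin 4 → ℂ), (S : Set (Fin 4 → ℂ)) ≠ V) ∧
    ¬ IsRationalAffine V :=
  ⟨H867.BS.VV, rfl, fun _ hW => H867.BS.comp_VV hW, H867.BS.not_affine, H867.BS.not_rational⟩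

end Pool.Agent.Results.MP_63dd0b_ag.NonlinearComponent
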